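import Mathlib

/-!
# A non-abelian mirror code which is dominated by no mirror code

For a finite group `G` with a subgroup `H` of index two the symmetric mirror code `(G, H, G)` has
parameters `[[n,n-2,2]]` (for example `[[6,4,2]]` for `G = S₃`). No mirror code of any finite group
(in particular no abelian one) has parameters dominating them.
-/

set_option autoImplicit false

open scoped BigOperators

namespace Pool.Agent.Results.MP_91138c_lc.SingletonCode

/-- The two-element field. -/
abbrev F2 := ZMod 2

/-- Pauli operators up to phase on qubits indexed by `ι`; `(u i).1` is the `X` part and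
`(u i).2` the `Z` part at the qubit `i`. -/
abbrev Pauli (ι : Type) := ι → F2 × F2

section Defs

variable {ι : Type} [Fintype ι]

/-- The symplectic form; two Pauli operators commute iff it vanishes. -/
def omega (u v : Pauli ι) : F2 := ∑ i, ((u i).1 * (v i).2 + (u i).2 * (v i).1)

/-- The number of qubits acted on nontrivially. -/
def weight (u : Pauli ι) : ℕ := (Finset.univ.filter fun i => u i ≠ 0).card

/-- The checks commute pairwise. -/
def Commuting (S : ι → Pauli ι) : Prop := ∀ g h, omega (S g) (S h) = 0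

/-- The span of the checks. -/
def spanV (S : ι → Pauli ι) : Submodule F2 (Pauli ι) := Submodule.span F2 (Set.range S)

/-- `k = n - dim V`. -/
noncomputable def codeK (S : ι → Pauli ι) : ℕ := Fintype.card ι - Module.finrank F2 (spanV S)

/-- `d`: the least weight of a Pauli operator commuting with all checks but not in `V`. -/
noncomputable def codeD (S : ι → Pauli ι) : ℕ :=
  sInf {w | ∃ u : Pauli ι, (∀ g, omega u (S g) = 0) ∧ u ∉ spanV S ∧ weight u = w}

end Defs

/-- Symmetric mirror checks `Z(A g) X(B g⁻¹)`. -/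
def symCheck {G : Type} [Group G] [DecidableEq G] (A B : Finset G) (g : G) : Pauli G := fun q =>
  (if q ∈ B.image (fun b => b * g⁻¹) then 1 else 0, if q ∈ A.image (fun a => a * g) then 1 else 0)

/-- Asymmetric mirror checks `Z(A g) X(g⁻¹ B)`. -/
def asymCheck {G : Type} [Group G] [DecidableEq G] (A B : Finset G) (g : G) : Pauli G := fun q =>
  (if q ∈ B.image (fun b => g⁻¹ * b) then 1 else 0, if q ∈ A.image (fun a => a * g) then 1 else 0)

/-- `[[n',k',d']]` dominates `[[n,k,d]]` (for `k = 0` the condition on `d` is void). -/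
def Dominates (n' k' d' n k d : ℕ) : Prop :=
  n' ≤ n ∧ k ≤ k' ∧ (k = 0 ∨ d ≤ d') ∧ (n' < n ∨ k < k' ∨ d < d')

section General

variable {ι : Type} [Fintype ι]

/-- The symplectic form as a bilinear map. -/
def om : Pauli ι →ₗ[F2] Pauli ι →ₗ[F2] F2 :=
  LinearMap.mk₂ F2 omega
    (fun u u' v => by
      simp only [omega, ← Finset.sum_add_distrib, Pi.add_apply, Prod.fst_add, Prod.snd_add]
      exact Finset.sum_congr rfl fun i _ => by ring)
    (fun c u v => by
      simp only [omega, Finset.mul_sum, Pi.smul_apply, Prod.smul_fst, Prod.smul_snd, smul_eq_mul]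
      exact Finset.sum_congr rfl fun i _ => by ring)
    (fun u v v' => by
      simp only [omega, ← Finset.sum_add_distrib, Pi.add_apply, Prod.fst_add, Prod.snd_add]
      exact Finset.sum_congr rfl fun i _ => by ring)
    (fun c u v => by
      simp only [omega, Finset.mul_sum, Pi.smul_apply, Prod.smul_fst, Prod.smul_snd, smul_eq_mul]
      exact Finset.sum_congr rfl fun i _ => by ring)

theorem om_apply (u v : Pauli ι) : om u v = omega u v := rfl

/-- Extension by zero along `e`. -/
noncomputable def ext {t : ℕ} (e : Fin t → ι) : (Fin t → F2 × F2) →ₗ[F2] Pauli ι := by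
  classical
  exact ∑ s, (LinearMap.single F2 (fun _ : ι => F2 × F2) (e s)) ∘ₗ LinearMap.proj s

omit [Fintype ι] in
theorem ext_apply [DecidableEq ι] {t : ℕ} (e : Fin t → ι) (x : Fin t → F2 × F2) (i : ι) :
    ext e x i = ∑ s, if i = e s then x s else 0 := by
  classical
  simp only [ext, LinearMap.sum_apply, Finset.sum_apply, LinearMap.comp_apply,
    LinearMap.proj_apply, LinearMap.single_apply, Pi.single_apply]
  exact Finset.sum_congr rfl fun s _ => by congr

omit [Fintype ι] in
theorem ext_eq {t : ℕ} {e : Fin t → ι} (he : Function.Injective e) (x : Fin t → F2 × F2)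
    (s : Fin t) : ext e x (e s) = x s := by
  classical
  rw [ext_apply]
  simp [he.eq_iff]

omit [Fintype ι] in
theorem ext_zero {t : ℕ} (e : Fin t → ι) (x : Fin t → F2 × F2) (i : ι) (h : ∀ s, i ≠ e s) :
    ext e x i = 0 := by
  classical
  rw [ext_apply]
  simp [h]

/-- A nonzero Pauli operator supported on `t` given qubits commuting with all checks. -/
theorem exists_local (S : ι → Pauli ι) {t : ℕ} {e : Fin t → ι} (he : Function.Injective e)
    (hr : Module.finrank F2 (spanV S) < 2 * t) :
    ∃ u : Pauli ι, u ≠ 0 ∧ (∀ i, (∀ s, i ≠ e s) → u i = 0) ∧ (∀ g, omega u (S g) = 0) := by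
  let L : (Fin t → F2 × F2) →ₗ[F2] Module.Dual F2 (spanV S) :=
    ((spanV S).subtype.dualMap) ∘ₗ om ∘ₗ (ext e)
  have hd : Module.finrank F2 (Module.Dual F2 (spanV S)) < Module.finrank F2 (Fin t → F2 × F2) := by
    rw [Subspace.dual_finrank_eq, Module.finrank_pi_fintype]
    simp only [Module.finrank_prod, Module.finrank_self, Finset.sum_const, Finset.card_univ,
      Fintype.card_fin, smul_eq_mul]
    omega
  have hk := LinearMap.ker_ne_bot_of_finrank_lt (f := L) hd
  obtain ⟨x, hx, hx0⟩ := (Submodule.ne_bot_iff _).1 hk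
  refine ⟨ext e x, ?_, fun i hi => ext_zero e x i hi, fun g => ?_⟩
  · intro h
    apply hx0
    funext s
    rw [← ext_eq he x s, h]
    rfl
  · have h1 : L x = 0 := hx
    have h2 := congrArg (fun f : Module.Dual F2 (spanV S) =>
      f ⟨S g, Submodule.subset_span ⟨g, rfl⟩⟩) h1
    exact h2

/-- A bound of Singleton type. -/
theorem exists_logical (S : ι → Pauli ι) {t m : ℕ} {e : Fin m → Fin t → ι}
    (he : ∀ a b s s', e a s = e b s' → a = b ∧ s = s')
    (hr : Module.finrank F2 (spanV S) < 2 * t) (hm : Module.finrank F2 (spanV S) < m) :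
    ∃ u : Pauli ι, (∀ g, omega u (S g) = 0) ∧ u ∉ spanV S ∧ weight u ≤ t := by
  classical
  have hloc : ∀ a, ∃ u : Pauli ι, u ≠ 0 ∧ (∀ i, (∀ s, i ≠ e a s) → u i = 0) ∧
      (∀ g, omega u (S g) = 0) := fun a =>
    exists_local S (fun s s' h => (he a a s s' h).2) hr
  choose u hu0 hus huc using hloc
  by_contra hcon
  push Not at hcon
  have hw : ∀ a, weight (u a) ≤ t := by
    intro a
    have hsub : (Finset.univ.filter fun i => u a i ≠ 0) ⊆ Finset.univ.image (e a) := by
      intro i hi
      simp only [Finset.mem_filter, Finset.mem_univ, true_and] at hi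
      by_contra hni
      apply hi
      apply hus
      intro s hs
      exact hni (Finset.mem_image.2 ⟨s, Finset.mem_univ _, hs.symm⟩)
    calc weight (u a) ≤ (Finset.univ.image (e a)).card := Finset.card_le_card hsub
      _ ≤ t := by
        have := Finset.card_image_le (s := (Finset.univ : Finset (Fin t))) (f := e a)
        simpa using this
  have hV : ∀ a, u a ∈ spanV S := by
    intro a
    by_contra hna
    exact absurd (hcon (u a) (huc a) hna) (not_lt.2 (hw a))
  have hli : LinearIndependent F2 (fun a => (⟨u a, hV a⟩ : spanV S)) := by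
    rw [Fintype.linearIndependent_iff]
    intro c hc a
    obtain ⟨i, hi⟩ : ∃ i, u a i ≠ 0 := by
      by_contra h
      push Not at h
      exact hu0 a (funext h)
    have h1 := congrArg (fun z : spanV S => (z : Pauli ι) i) hc
    simp only [Submodule.coe_sum, Submodule.coe_smul, Finset.sum_apply, Pi.smul_apply,
      Submodule.coe_zero, Pi.zero_apply] at h1
    rw [Finset.sum_eq_single a] at h1
    · exact (smul_eq_zero.1 h1).resolve_right hi
    · intro b _ hb
      have : u b i = 0 := by
        apply hus
        intro s hs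
        obtain ⟨s', hs'⟩ : ∃ s', i = e a s' := by
          by_contra h
          push Not at h
          exact hi (hus a i h)
        exact hb (he b a s s' (hs.symm.trans hs')).1
      rw [this, smul_zero]
    · intro h
      exact absurd (Finset.mem_univ a) h
  have := hli.fintype_card_le_finrank
  simp only [Fintype.card_fin] at this
  omega

/-- A block embedding of `m t ≤ n` qubits. -/
theorem exists_emb (m t : ℕ) (h : m * t ≤ Fintype.card ι) :
    ∃ e : Fin m → Fin t → ι, ∀ a b s s', e a s = e b s' → a = b ∧ s = s' := by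
  have h1 : Fintype.card (Fin m × Fin t) ≤ Fintype.card ι := by simpa using h
  obtain ⟨f⟩ := Function.Embedding.nonempty_of_card_le h1
  refine ⟨fun a s => f (a, s), fun a b s s' h => ?_⟩
  have := f.injective h
  exact ⟨congrArg Prod.fst this, congrArg Prod.snd this⟩

/-- For `N ≥ 6`, parameters `n ≤ N`, `k ≥ N - 2`, `d ≥ 2` force `n = N`, `k = N - 2`, `d = 2`. -/
theorem rigid (S : ι → Pauli ι) {N : ℕ} (h6 : 6 ≤ N) (hn : Fintype.card ι ≤ N)
    (hk : N - 2 ≤ codeK S) (hd : 2 ≤ codeD S) :
    Fintype.card ι = N ∧ codeK S = N - 2 ∧ codeD S = 2 := by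
  have hr1 : ¬ Module.finrank F2 (spanV S) < 2 := by
    intro hr
    have hc : 2 * 1 ≤ Fintype.card ι := by unfold codeK at hk; omega
    obtain ⟨e, he⟩ := exists_emb 2 1 hc
    obtain ⟨u, h1, h2, h3⟩ := exists_logical S he (by omega) (by omega)
    have : codeD S ≤ weight u := Nat.sInf_le ⟨u, h1, h2, rfl⟩
    omega
  have hc : Fintype.card ι = N := by unfold codeK at hk; omega
  have hr2 : Module.finrank F2 (spanV S) = 2 := by unfold codeK at hk; omega
  obtain ⟨e, he⟩ := exists_emb (ι := ι) 3 2 (by omega)
  obtain ⟨u, h1, h2, h3⟩ := exists_logical S he (by omega) (by omega)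
  have : codeD S ≤ weight u := Nat.sInf_le ⟨u, h1, h2, rfl⟩
  refine ⟨hc, ?_, by omega⟩
  unfold codeK
  omega

end General

section Family

variable {G : Type} [Group G] [Fintype G] [DecidableEq G] (H : Subgroup G)
  [DecidablePred (· ∈ H)]

/-- The checks of the symmetric mirror code `(G, H, G)`. -/
def SH : G → Pauli G := symCheck (Finset.univ.filter (· ∈ H)) Finset.univ

theorem SH_apply (g q : G) : SH H g q = (1, if q * g⁻¹ ∈ H then 1 else 0) := by
  have h1 : q ∈ (Finset.univ : Finset G).image (fun b => b * g⁻¹) :=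
    Finset.mem_image.2 ⟨q * g, Finset.mem_univ _, by simp⟩
  have h2 : q ∈ (Finset.univ.filter (· ∈ H)).image (fun a => a * g) ↔ q * g⁻¹ ∈ H := by
    constructor
    · intro h
      obtain ⟨a, ha, rfl⟩ := Finset.mem_image.1 h
      simpa using ha
    · intro h
      exact Finset.mem_image.2 ⟨q * g⁻¹, by simpa using h, by simp⟩
  simp only [SH, symCheck, if_pos h1]
  by_cases h : q * g⁻¹ ∈ H
  · rw [if_pos (h2.2 h), if_pos h]
  · rw [if_neg (fun h' => h (h2.1 h')), if_neg h]

/-- The two checks: `Z(H) X(G)` and `Z(G - H) X(G)`. -/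
def P0 : Pauli G := fun q => (1, if q ∈ H then 1 else 0)
def P1 : Pauli G := fun q => (1, if q ∈ H then 0 else 1)

theorem SH_eq (hH : H.index = 2) (g : G) :
    (g ∈ H ∧ SH H g = P0 H) ∨ (g ∉ H ∧ SH H g = P1 H) := by
  by_cases hg : g ∈ H
  · left
    refine ⟨hg, funext fun q => ?_⟩
    rw [SH_apply, P0]
    have : q * g⁻¹ ∈ H ↔ q ∈ H := by
      rw [Subgroup.mul_mem_iff_of_index_two hH, inv_mem_iff]
      simp [hg]
    simp [this]
  · right
    refine ⟨hg, funext fun q => ?_⟩
    rw [SH_apply, P1]
    have : q * g⁻¹ ∈ H ↔ ¬ q ∈ H := by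
      rw [Subgroup.mul_mem_iff_of_index_two hH, inv_mem_iff]
      simp [hg]
    by_cases hq : q ∈ H <;> simp [this, hq]

theorem even_card (hH : H.index = 2) : ((Fintype.card G : ℕ) : F2) = 0 := by
  have h := H.card_mul_index
  rw [hH, Nat.card_eq_fintype_card (α := G)] at h
  rw [← h]
  push_cast
  rw [show (2 : F2) = 0 from rfl, mul_zero]

theorem omega_add (u v : Pauli G) (hu : ∀ q, (u q).1 = 1) (hv : ∀ q, (v q).1 = 1) :
    omega u v = ∑ q, ((u q).2 + (v q).2) := by
  unfold omega
  refine Finset.sum_congr rfl fun q _ => ?_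
  rw [hu, hv]
  ring

theorem two_eq_zero (a : F2) : a + a = 0 := by
  revert a
  decide

theorem SH_commuting (hH : H.index = 2) : Commuting (SH H) := by
  have h00 : omega (P0 H) (P0 H) = 0 := by
    rw [omega_add _ _ (fun _ => rfl) (fun _ => rfl)]
    exact Finset.sum_eq_zero fun q _ => two_eq_zero _
  have h11 : omega (P1 H) (P1 H) = 0 := by
    rw [omega_add _ _ (fun _ => rfl) (fun _ => rfl)]
    exact Finset.sum_eq_zero fun q _ => two_eq_zero _
  have hone : ∀ q : G, (P0 H q).2 + (P1 H q).2 = 1 := by
    intro q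
    by_cases hq : q ∈ H <;> simp [P0, P1, hq]
  have h01 : omega (P0 H) (P1 H) = 0 := by
    rw [omega_add _ _ (fun _ => rfl) (fun _ => rfl), Finset.sum_congr rfl fun q _ => hone q]
    simpa using even_card H hH
  have h10 : omega (P1 H) (P0 H) = 0 := by
    rw [omega_add _ _ (fun _ => rfl) (fun _ => rfl),
      Finset.sum_congr rfl fun q _ => (add_comm _ _).trans (hone q)]
    simpa using even_card H hH
  intro g h
  rcases SH_eq H hH g with ⟨-, hg⟩ | ⟨-, hg⟩ <;> rcases SH_eq H hH h with ⟨-, hh⟩ | ⟨-, hh⟩ <;>
    rw [hg, hh] <;> assumption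

theorem finrank_SH (hH : H.index = 2) : Module.finrank F2 (spanV (SH H)) ≤ 2 := by
  have h : spanV (SH H) ≤ Submodule.span F2 (Set.range ![P0 H, P1 H]) := by
    unfold spanV
    rw [Submodule.span_le]
    rintro _ ⟨g, rfl⟩
    rcases SH_eq H hH g with ⟨-, h⟩ | ⟨-, h⟩
    · rw [h]
      exact Submodule.subset_span ⟨0, rfl⟩
    · rw [h]
      exact Submodule.subset_span ⟨1, rfl⟩
  refine (Submodule.finrank_mono h).trans ?_
  have := finrank_range_le_card (R := F2) ![P0 H, P1 H]
  simpa [Set.finrank] using this

theorem omega_single (i : G) (a : F2 × F2) (v : Pauli G) :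
    omega (Pi.single i a) v = a.1 * (v i).2 + a.2 * (v i).1 := by
  unfold omega
  rw [Finset.sum_eq_single i]
  · simp
  · intro j _ hj
    simp [Pi.single_eq_of_ne hj]
  · intro h
    exact absurd (Finset.mem_univ i) h

theorem codeD_SH (hH : H.index = 2) (h6 : 6 ≤ Fintype.card G) : 2 ≤ codeD (SH H) := by
  unfold codeD
  have hr := finrank_SH H hH
  obtain ⟨e, he⟩ := exists_emb (ι := G) 3 2 (by omega)
  obtain ⟨u, h1, h2, -⟩ := exists_logical (SH H) he (by omega) (by omega)
  refine le_csInf ⟨_, u, h1, h2, rfl⟩ ?_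
  rintro w ⟨u, h1, h2, rfl⟩
  by_contra hlt
  have hle : (Finset.univ.filter fun i => u i ≠ 0).card ≤ 1 := by
    unfold weight at hlt
    omega
  rw [Finset.card_le_one] at hle
  by_cases h0 : u = 0
  · exact h2 (h0 ▸ Submodule.zero_mem _)
  · obtain ⟨i, hi⟩ : ∃ i, u i ≠ 0 := by
      by_contra h
      push Not at h
      exact h0 (funext h)
    have hu : u = Pi.single i (u i) := by
      funext j
      by_cases hj : j = i
      · subst hj
        simp
      · rw [Pi.single_eq_of_ne hj]
        by_contra hne
        exact hj (hle j (by simpa using hne) i (by simpa using hi))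
    obtain ⟨x, hx⟩ : ∃ x, x ∉ H := by
      by_contra h
      push Not at h
      have : H = ⊤ := (Subgroup.eq_top_iff' H).2 h
      rw [this, Subgroup.index_top] at hH
      omega
    have e0 : omega u (P0 H) = 0 := by
      rcases SH_eq H hH 1 with ⟨-, h⟩ | ⟨h, -⟩
      · rw [← h]
        exact h1 1
      · exact absurd H.one_mem h
    have e1 : omega u (P1 H) = 0 := by
      rcases SH_eq H hH x with ⟨h, -⟩ | ⟨-, h⟩
      · exact absurd h hx
      · rw [← h]
        exact h1 x
    rw [hu, omega_single] at e0 e1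
    apply hi
    have key : ∀ (a : F2 × F2) (s t : F2), s + t = 1 → a.1 * s + a.2 * 1 = 0 →
        a.1 * t + a.2 * 1 = 0 → a = 0 := by
      decide
    refine key (u i) (P0 H i).2 (P1 H i).2 ?_ e0 e1
    by_cases hq : i ∈ H <;> simp [P0, P1, hq]

end Family

/-- (1) Let `G` be a finite group of order at least six with a subgroup `H` of index two. Then
`(G, H, G)` is a valid symmetric mirror code with parameters `[[n, n - 2, 2]]`, `n = |G|`, and no
symmetric or asymmetric mirror code of a finite group, in particular none of a finite abelian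
group, has parameters dominating these. (2) There are such `G` which are not abelian. -/
theorem result :
    (∀ (G : Type) [Group G] [Fintype G] [DecidableEq G] (H : Subgroup G) [DecidablePred (· ∈ H)],
      H.index = 2 → 6 ≤ Fintype.card G →
      Commuting (symCheck (Finset.univ.filter (· ∈ H)) Finset.univ) ∧
      codeK (symCheck (Finset.univ.filter (· ∈ H)) Finset.univ) = Fintype.card G - 2 ∧
      codeD (symCheck (Finset.univ.filter (· ∈ H)) Finset.univ) = 2 ∧
      ∀ (G' : Type) [Group G'] [Fintype G'] [DecidableEq G'] (A' B' : Finset G'),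
        ¬ Dominates (Fintype.card G') (codeK (symCheck A' B')) (codeD (symCheck A' B'))
            (Fintype.card G) (Fintype.card G - 2) 2 ∧
        ¬ Dominates (Fintype.card G') (codeK (asymCheck A' B')) (codeD (asymCheck A' B'))
            (Fintype.card G) (Fintype.card G - 2) 2) ∧
    (∃ H : Subgroup (Equiv.Perm (Fin 3)), H.index = 2 ∧ 6 ≤ Fintype.card (Equiv.Perm (Fin 3)) ∧
      ∃ x y : Equiv.Perm (Fin 3), x * y ≠ y * x) := by
  constructor
  · intro G _ _ _ H _ hH h6
    have hk : Fintype.card G - 2 ≤ codeK (SH H) := by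
      unfold codeK
      have := finrank_SH H hH
      omega
    obtain ⟨-, h4, h2⟩ := rigid (SH H) h6 le_rfl hk (codeD_SH H hH h6)
    have key : ∀ (G' : Type) [Fintype G'] (S : G' → Pauli G'),
        ¬ Dominates (Fintype.card G') (codeK S) (codeD S) (Fintype.card G)
          (Fintype.card G - 2) 2 := by
      rintro G' _ S ⟨hn, hk, hd, hs⟩
      obtain ⟨e6, e4, e2⟩ := rigid S h6 hn hk (by omega)
      omega
    exact ⟨SH_commuting H hH, h4, h2, fun G' _ _ _ A' B' => ⟨key G' _, key G' _⟩⟩
  · exact ⟨alternatingGroup (Fin 3), alternatingGroup.index_eq_two, by decide +kernel,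
      Equiv.swap 0 1, Equiv.swap 1 2, by decide +kernel⟩

end Pool.Agent.Results.MP_91138c_lc.SingletonCode
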